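import Pool.Agent.Helper53.UR.Goals
import Pool.Agent.Helper53.CTG.All

/-!
# PROJECT UR (MP_c578c8_lc), packet LNX (helper24): the machine is a linear space machine
-/

set_option autoImplicit false

namespace Pool.Agent.Helper24.UR

open Pool.Agent.Helper53.UR
open Pool.Agent.Helper1.TE (cif NumMach)
open Pool.Agent.Helper65.LinSpace (dig nrec ifz eq01 le01 lt01 Ctx LS)
open Pool.Agent.Helper53.CTG (De sub root Nt Et bigT bigX bigS bigA BigIn)

section proj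

variable {α β : Type} [Ctx α] [Ctx β] {f : α → Sta β}

theorem ls_mo (hf : LS f) : LS (fun a => (f a).mo) := by unfold Sta.mo; fun_prop
theorem ls_ρ (hf : LS f) : LS (fun a => (f a).ρ) := by unfold Sta.ρ; fun_prop
theorem ls_u (hf : LS f) : LS (fun a => (f a).u) := by unfold Sta.u; fun_prop
theorem ls_τ (hf : LS f) : LS (fun a => (f a).τ) := by unfold Sta.τ; fun_prop
theorem ls_g (hf : LS f) : LS (fun a => (f a).g) := by unfold Sta.g; fun_prop
theorem ls_D (hf : LS f) : LS (fun a => (f a).D) := by unfold Sta.D; fun_prop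
theorem ls_X (hf : LS f) : LS (fun a => (f a).X) := by unfold Sta.X; fun_prop
theorem ls_S (hf : LS f) : LS (fun a => (f a).S) := by unfold Sta.S; fun_prop
theorem ls_A (hf : LS f) : LS (fun a => (f a).A) := by unfold Sta.A; fun_prop
theorem ls_o (hf : LS f) : LS (fun a => (f a).o) := by unfold Sta.o; fun_prop

theorem ls_rdS {v p u : α → ℕ} (h1 : LS v) (h2 : LS p) (h3 : LS u) :
    LS (fun a => (rdS (v a) (p a) (u a) : Sta β)) := by
  unfold rdS
  exact (((LS.const 0).prodMk ((LS.const 0).prodMk h3))).prodMk ((h1.prodMk h2).prodMk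
    ((LS.const ((0, 0, 0, 0, 0, 0, 0) : De)).prodMk ((LS.const ((0, 0, 0) : ℕ × ℕ × ℕ)).prodMk
      (LS.const (zb : β)))))

theorem ls_ctS {o : α → β} (h : LS o) : LS (fun a => ctS (o a)) := by
  unfold ctS
  exact (LS.const ((1, 0, 0) : ℕ × ℕ × ℕ)).prodMk ((LS.const ((0, 0) : ℕ × ℕ)).prodMk
    ((LS.const ((0, 0, 0, 0, 0, 0, 0) : De)).prodMk ((LS.const ((0, 0, 0) : ℕ × ℕ × ℕ)).prodMk h)))

theorem ls_mainS {o : α → β} {ρ u τ g X S A : α → ℕ} {D : α → De} (h0 : LS o) (h1 : LS ρ)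
    (h2 : LS u) (h3 : LS τ) (h4 : LS g) (h5 : LS D) (h6 : LS X) (h7 : LS S) (h8 : LS A) :
    LS (fun a => mainS (o a) (ρ a) (u a) (τ a) (g a) (D a) (X a) (S a) (A a)) := by
  unfold mainS
  exact (((LS.const 2).prodMk (h1.prodMk h2))).prodMk ((h3.prodMk h4).prodMk
    (h5.prodMk ((h6.prodMk (h7.prodMk h8)).prodMk h0)))

theorem ls_bigIn {N q b c W G w X S A : α → ℕ} {D : α → De} (h1 : LS N) (h2 : LS q)
    (h3 : LS b) (h4 : LS c) (h5 : LS W) (h6 : LS D) (h7 : LS G) (h8 : LS w)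
    (h10 : LS X) (h11 : LS S) (h12 : LS A) :
    LS (fun z => (((N z, q z, b z, c z, W z), D z, (G z, w z), (X z, S z, A z)) :
      BigIn)) := by
  fun_prop

end proj

theorem gLNX : GoalLNX := by
  intro hLBG β _ M hM
  obtain ⟨-, bW, bT⟩ := hLBG M hM
  have hCF := @Pool.Agent.Helper12.TE.gLCF
  obtain ⟨-, -, -, nNt, -⟩ := @Pool.Agent.Helper44.CTG.gLN @Pool.Agent.Helper27.TE.gLSD
    @Pool.Agent.Helper53.TE.gLCT
  obtain ⟨-, bX, bS, bA, -⟩ := @Pool.Agent.Helper63.CTG.gLBG @Pool.Agent.Helper44.CTG.gLN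
    @Pool.Agent.Helper27.TE.gLSD @Pool.Agent.Helper53.TE.gLCT
  obtain ⟨sS, sR⟩ := @Pool.Agent.Helper57.CTG.gLSUB @Pool.Agent.Helper12.TE.gLCF
  refine ⟨?_, ?_, ?_⟩
  · change LS (fun x : Sta β => x.u)
    exact ls_u LS.id
  · change LS (fun p : Sta β × ℕ × ℕ => M.nextM p.1 p.2.1 p.2.2)
    have i0 : LS (fun p : Sta β × ℕ × ℕ => p.1) := LS.fst
    have iy : LS (fun p : Sta β × ℕ × ℕ => p.2.1) := by fun_prop
    have ig : LS (fun p : Sta β × ℕ × ℕ => p.2.2) := by fun_prop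
    have e1 := ls_mo i0
    have eρ := ls_ρ i0
    have e6 := ls_u i0
    have e8 := ls_τ i0
    have e9 := ls_g i0
    have e11 := ls_D i0
    have e12 := ls_X i0
    have e13 := ls_S i0
    have e14 := ls_A i0
    have eo := ls_o i0
    have e2 : LS (fun p : Sta β × ℕ × ℕ => M.N p.1.o) := hM.N.comp eo
    have e3 : LS (fun p : Sta β × ℕ × ℕ => M.q p.1.o) := hM.q.comp eo
    have e4 : LS (fun p : Sta β × ℕ × ℕ => M.b p.1.o) := hM.b.comp eo
    have e5 : LS (fun p : Sta β × ℕ × ℕ => M.c p.1.o) := hM.c.comp eo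
    have e7 : LS (fun p : Sta β × ℕ × ℕ => M.W p.1.o) := hM.W.comp eo
    have eh : LS (fun p : Sta β × ℕ × ℕ => M.h p.1.o) := hM.h.comp eo
    have eou : LS (fun p : Sta β × ℕ × ℕ => M.out p.1.o) := hM.out.comp eo
    have eN : LS (fun p : Sta β × ℕ × ℕ => Nt (M.N p.1.o) (M.q p.1.o)) := by
      have := nNt.comp (e2.prodMk e3)
      exact this
    have zero : LS (fun _ : Sta β × ℕ × ℕ => (0 : ℕ)) := LS.const 0
    have one : LS (fun _ : Sta β × ℕ × ℕ => (1 : ℕ)) := LS.const 1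
    have two : LS (fun _ : Sta β × ℕ × ℕ => (2 : ℕ)) := LS.const 2
    have three : LS (fun _ : Sta β × ℕ × ℕ => (3 : ℕ)) := LS.const 3
    have rej : LS (fun _ : Sta β × ℕ × ℕ => (rejS : Sta β)) := LS.const rejS
    have acc : LS (fun _ : Sta β × ℕ × ℕ => (accS : Sta β)) := LS.const accS
    have eR : LS (fun p : Sta β × ℕ × ℕ => root (M.N p.1.o) (M.q p.1.o)) := by
      have := sR.comp (e2.prodMk e3)
      exact this
    -- mode 0
    have m0 : LS (fun p : Sta β × ℕ × ℕ => cif p.2.1 (ctS (M.I (p.1.τ + (p.1.g + 1))))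
        (rdS (p.1.τ + (p.2.1 - 1) * (p.1.g + 1)) (2 * p.1.g + 1) (p.1.u + 1))) := by
      refine hCF _ _ _ iy (ls_ctS ?_) (ls_rdS ?_ ?_ e6.succ)
      · exact hM.I.comp (e8.add e9.succ)
      · exact e8.add ((iy.sub one).mul e9.succ)
      · exact (two.mul e9).succ
    -- mode 1
    have m1 : LS (fun p : Sta β × ℕ × ℕ => cif (M.h p.1.o)
        (mainS p.1.o p.2.2 0 0 0 (root (M.N p.1.o) (M.q p.1.o)) 0 0 0)
        (cif (M.out p.1.o) rejS accS)) :=
      hCF _ _ _ eh (ls_mainS eo ig zero zero zero eR zero zero zero) (hCF _ _ _ eou rej acc)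
    -- mode 2
    have hwV : LS (fun p : Sta β × ℕ × ℕ => M.wV p.1.o p.1.D p.1.A p.1.g) := by
      have := bW.comp (eo.prodMk (e11.prodMk (e14.prodMk e9)))
      exact this
    have hin := ls_bigIn e2 e3 e4 e5 e7 e11 e9 hwV e12 e13 e14
    have hT' : LS (fun p : Sta β × ℕ × ℕ => bigT (M.tst p.1.o p.1.ρ) (M.b p.1.o) (M.c p.1.o)
        (M.W p.1.o) p.1.D p.1.g (M.wV p.1.o p.1.D p.1.A p.1.g) p.1.X p.1.A) := by
      have := bT.comp ((eo.prodMk eρ).prodMk (e11.prodMk ((e9.prodMk hwV).prodMk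
        (e12.prodMk e14))))
      exact this
    have hX' : LS (fun p : Sta β × ℕ × ℕ => bigX (M.N p.1.o) (M.q p.1.o) (M.b p.1.o) (M.c p.1.o)
        (M.W p.1.o) p.1.D p.1.g (M.wV p.1.o p.1.D p.1.A p.1.g) p.1.X p.1.S p.1.A) := by
      have := bX.comp hin
      exact this
    have hS' : LS (fun p : Sta β × ℕ × ℕ => bigS (M.N p.1.o) (M.q p.1.o) (M.b p.1.o) (M.c p.1.o)
        (M.W p.1.o) p.1.D (M.wV p.1.o p.1.D p.1.A p.1.g) p.1.X p.1.S p.1.A) := by
      have := bS.comp hin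
      exact this
    have hA' : LS (fun p : Sta β × ℕ × ℕ => bigA (M.c p.1.o) (M.W p.1.o) p.1.D
        (M.wV p.1.o p.1.D p.1.A p.1.g) p.1.A) := by
      have := bA.comp hin
      exact this
    have hdv : LS (fun p : Sta β × ℕ × ℕ => (p.1.τ + 1) / 13 ^ Nt (M.N p.1.o) (M.q p.1.o)) :=
      LS.divPow (LS.const 13) e8.succ eN
    have hkk : LS (fun p : Sta β × ℕ × ℕ => Nt (M.N p.1.o) (M.q p.1.o) - 1 - p.1.u) :=
      (eN.sub one).sub e6
    have hsub : LS (fun p : Sta β × ℕ × ℕ => sub (M.q p.1.o) p.1.D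
        (Nt (M.N p.1.o) (M.q p.1.o) - 1 - p.1.u)
        (dig 13 p.1.τ (Nt (M.N p.1.o) (M.q p.1.o) - 1 - p.1.u))) := by
      have := sS.comp ((e3.prodMk e11).prodMk (hkk.prodMk (LS.dig (LS.const 13) e8 hkk)))
      exact this
    have hdd : LS (fun p : Sta β × ℕ × ℕ => M.d p.1.o p.1.ρ) := by
      have := hM.d.comp (eo.prodMk eρ)
      exact this
    have m2 : LS (fun p : Sta β × ℕ × ℕ => cif (Nt (M.N p.1.o) (M.q p.1.o) - p.1.u)
      (cif (Nt (M.N p.1.o) (M.q p.1.o) + 3 * M.b p.1.o - p.1.u)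
        (cif (bigT (M.tst p.1.o p.1.ρ) (M.b p.1.o) (M.c p.1.o) (M.W p.1.o) p.1.D p.1.g
            (M.wV p.1.o p.1.D p.1.A p.1.g) p.1.X p.1.A) rejS
          (cif ((p.1.τ + 1) / 13 ^ Nt (M.N p.1.o) (M.q p.1.o))
            (mainS p.1.o p.1.ρ 0 (p.1.τ + 1) 0 (root (M.N p.1.o) (M.q p.1.o))
              (bigX (M.N p.1.o) (M.q p.1.o) (M.b p.1.o) (M.c p.1.o) (M.W p.1.o) p.1.D p.1.g
                (M.wV p.1.o p.1.D p.1.A p.1.g) p.1.X p.1.S p.1.A)
              (bigS (M.N p.1.o) (M.q p.1.o) (M.b p.1.o) (M.c p.1.o) (M.W p.1.o) p.1.D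
                (M.wV p.1.o p.1.D p.1.A p.1.g) p.1.X p.1.S p.1.A)
              (bigA (M.c p.1.o) (M.W p.1.o) p.1.D (M.wV p.1.o p.1.D p.1.A p.1.g) p.1.A))
            (ctS (M.d p.1.o p.1.ρ))))
        (mainS p.1.o p.1.ρ (p.1.u + 1) p.1.τ (2 * p.1.g + p.2.2) p.1.D p.1.X p.1.S p.1.A))
      (mainS p.1.o p.1.ρ (p.1.u + 1) p.1.τ p.1.g
        (sub (M.q p.1.o) p.1.D (Nt (M.N p.1.o) (M.q p.1.o) - 1 - p.1.u)
          (dig 13 p.1.τ (Nt (M.N p.1.o) (M.q p.1.o) - 1 - p.1.u)))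
        p.1.X p.1.S p.1.A)) := by
      refine hCF _ _ _ (eN.sub e6) (hCF _ _ _ ((eN.add (three.mul e4)).sub e6)
        (hCF _ _ _ hT' rej (hCF _ _ _ hdv ?_ (ls_ctS hdd))) ?_) ?_
      · exact ls_mainS eo eρ zero e8.succ zero eR hX' hS' hA'
      · exact ls_mainS eo eρ e6.succ e8 ((two.mul e9).add ig) e11 e12 e13 e14
      · exact ls_mainS eo eρ e6.succ e8 e9 hsub e12 e13 e14
    have hN : LS (fun p : Sta β × ℕ × ℕ => M.nextN p.1 p.2.1 p.2.2) := by
      unfold UM.nextN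
      exact hCF _ _ _ e1 m0 (hCF _ _ _ (e1.sub one) m1 (hCF _ _ _ (e1.sub two) m2 i0))
    have hG : LS (fun p : Sta β × ℕ × ℕ => M.gq p.1) := by
      unfold UM.gq
      exact ((LS.eq01 e1 one).mul (LS.eq01 eh zero)).add ((LS.eq01 e1 two).mul
        ((LS.le01 eN e6).mul (LS.lt01 e6 (eN.add (three.mul e4)))))
    unfold UM.nextM
    exact hCF _ _ _ (ig.mul (one.sub hG)) hN (hCF _ _ _ (LS.eq01 e1 three) rej i0)
  · change LS (fun x : Sta β => eq01 x.mo 3)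
    exact LS.eq01 (ls_mo LS.id) (LS.const 3)

end Pool.Agent.Helper24.UR
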